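import Pool.Agent.Lib.MP_1f7bca_co.Toric
import Pool.Agent.Lib.MP_1f7bca_co.Bin

set_option autoImplicit false

/-!
# MP_1f7bca_co, Q1: the answer is negative

For `n ≥ 3` let `N` be the binary matroid on all vectors of `F_2^n` other than the zero vector and
the all-ones vector (the projective geometry `PG(n-1, 2)` with one point deleted), and let
`M = N✶`.  The matroid `M` is binary, connected, simple and cosimple.  Its first restricted-minor
step has to be a deletion, i.e. a contraction in `N`; after that every line of the dual has a third
point, which the dual of `M(K₅)*` does not allow.  So `M` has no `M(K₅)*`-restricted minor.  The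
cycle ideal of `M` is principal, generated by a binomial of degree `2^(n-1)`: by Fourier inversion
over `F_2^n` the lattice of linear relations among the incidence vectors of the `2^n` cycles is
generated by one character.  For `n = 4` the degree is `8`, so `μ(M) = 8 ≥ 6`.
-/

namespace Pool.Agent.Results.MP_1f7bca_co.UnboundedDegree

open Pool.Agent.Lib.MP_1f7bca_co

universe u

/-- For every `n ≥ 3` there is a connected binary matroid, simple and cosimple, without an
`M(K₅)*`-restricted minor, for which over every field the cycle ideal has a minimal homogeneous
generating set and the largest degree in every such set is exactly `2^(n-1)`. -/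
theorem result (n : ℕ) (hn : 3 ≤ n) :
    ∃ (α : Type) (_ : Fintype α) (M : Matroid α),
      IsBinary M ∧ IsConnected M ∧ IsSimple M ∧ IsCosimple M ∧ ¬ HasRestrictedMinorDualK5 M ∧
      ∀ (K : Type u) [Field K],
        (∃ G : Set (MvPolynomial (Cyc M) K), IsMinHomGen (cycleIdeal K M) G) ∧
        ∀ G : Set (MvPolynomial (Cyc M) K), IsMinHomGen (cycleIdeal K M) G →
          IsGreatest (MvPolynomial.totalDegree '' G) (2 ^ (n - 1)) := by
  refine ⟨Fin n → ZMod 2, inferInstance, (pgMinus n)✶, isBinary_dual hn, isConnected_dual hn,
    isSimple_dual hn, isCosimple_dual n, no_minor hn, ?_⟩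
  intro K _
  rw [cycleIdeal_eq K hn]
  exact ⟨⟨{gen K hn}, minHomGen_singleton _ _ (gen_homogeneous K hn) (gen_ne_zero K hn)⟩,
    fun G hG => minHomGen_greatest _ _ (gen_homogeneous K hn) (gen_ne_zero K hn) G hG⟩

end Pool.Agent.Results.MP_1f7bca_co.UnboundedDegree
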